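import Mathlib

set_option autoImplicit false

/-! # Definitions: isomorphism game algebras, solution groups, full group C*-algebras -/

namespace Pool.Agent.R509GA

universe u

/-- The relation (equal, adjacent, distinct and non-adjacent) of `g, g'` in `G` is the same as the
relation of `h, h'` in `H`. -/
def SameRel {V W : Type} (G : SimpleGraph V) (H : SimpleGraph W) (g g' : V) (h h' : W) : Prop :=
  (g = g' ↔ h = h') ∧ (G.Adj g g' ↔ H.Adj h h')

/-- The defining relations of the isomorphism game algebra `𝒜(G,H)`: the `p g h` are projections,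
rows and columns sum to `1`, and `p g h * p g' h' = 0` whenever the relation of `g, g'` in `G`
differs from the relation of `h, h'` in `H`. -/
structure IsGameFamily {V W : Type} [Fintype V] [Fintype W] (G : SimpleGraph V)
    (H : SimpleGraph W) {A : Type u} [Ring A] [StarRing A] (p : V → W → A) : Prop where
  selfadj : ∀ g h, star (p g h) = p g h
  idem : ∀ g h, p g h * p g h = p g h
  row : ∀ g, ∑ h, p g h = 1
  col : ∀ h, ∑ g, p g h = 1
  orth : ∀ g g' h h', ¬ SameRel G H g g' h h' → p g h * p g' h' = 0

/-- `A` together with `p` is (a model of) the isomorphism game algebra `𝒜(G,H)`: the relations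
hold, `A` is generated by the `p g h` as a unital C*-algebra, and every family in a unital
C*-algebra satisfying the relations is the image of `p` under a unital *-homomorphism. -/
structure IsGameAlgebra {V W : Type} [Fintype V] [Fintype W] (G : SimpleGraph V)
    (H : SimpleGraph W) (A : Type u) [CStarAlgebra A] (p : V → W → A) : Prop where
  fam : IsGameFamily G H p
  gen : (StarAlgebra.adjoin ℂ (Set.range fun x : V × W => p x.1 x.2)).topologicalClosure = ⊤
  lift : ∀ (B : Type) [CStarAlgebra B] (q : V → W → B), IsGameFamily G H q →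
    ∃ φ : A →⋆ₐ[ℂ] B, ∀ g h, φ (p g h) = q g h

/-- `C` together with `v` is (a model of) the full group C*-algebra `C*(Λ)` of the discrete group
`Λ`: `C` is generated by the unitaries `v s`, and every unitary representation of `Λ` in a unital
C*-algebra extends to a unital *-homomorphism on `C`. -/
structure IsGroupCStar (Λ : Type) [Group Λ] (C : Type u) [CStarAlgebra C]
    (v : Λ →* unitary C) : Prop where
  gen : (StarAlgebra.adjoin ℂ (Set.range fun s : Λ => (v s : C))).topologicalClosure = ⊤
  lift : ∀ (B : Type) [CStarAlgebra B] (w : Λ →* unitary B),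
    ∃ φ : C →⋆ₐ[ℂ] B, ∀ s, φ (v s) = w s

/-- The generator `g_i` of the free group on `J, g_1, …, g_n`. -/
def gI {n : ℕ} (i : Fin n) : FreeGroup (Option (Fin n)) := FreeGroup.of (some i)

/-- The generator `J` of the free group on `J, g_1, …, g_n`. -/
def gJ {n : ℕ} : FreeGroup (Option (Fin n)) := FreeGroup.of none

/-- The relators of the solution group of the binary linear system `M x = b`. -/
def solRels {m n : ℕ} (M : Matrix (Fin m) (Fin n) (ZMod 2)) (b : Fin m → ZMod 2) :
    Set (FreeGroup (Option (Fin n))) :=
  {r | r = gJ * gJ} ∪ {r | ∃ i : Fin n, r = gI i * gI i} ∪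
  {r | ∃ i : Fin n, r = gJ * gI i * gJ⁻¹ * (gI i)⁻¹} ∪
  {r | ∃ i j k, M k i = 1 ∧ M k j = 1 ∧ r = gI i * gI j * (gI i)⁻¹ * (gI j)⁻¹} ∪
  {r | ∃ k, r = (List.ofFn fun i : Fin n => gI i ^ (M k i).val).prod * (gJ ^ (b k).val)⁻¹}

/-- The solution group `Γ(M,b)` of the binary linear system `M x = b`. -/
abbrev SolutionGroup {m n : ℕ} (M : Matrix (Fin m) (Fin n) (ZMod 2)) (b : Fin m → ZMod 2) :
    Type := PresentedGroup (solRels M b)

end Pool.Agent.R509GA
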