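import Pool.Agent.R509GA.Univ
import Pool.Agent.R509GA.Defs

set_option autoImplicit false

/-! # Existence of the universal algebras -/

namespace Pool.Agent.R509GA

universe u

lemma norm_le_one_of_proj {B : Type u} [CStarAlgebra B] {a : B} (h1 : star a = a)
    (h2 : a * a = a) : ‖a‖ ≤ 1 := by
  have h : ‖a‖ * ‖a‖ = ‖a‖ := by
    rw [← CStarRing.norm_star_mul_self, h1, h2]
  rcases eq_or_ne (‖a‖) 0 with h0 | h0
  · rw [h0]; exact zero_le_one
  · exact le_of_eq (mul_left_cancel₀ h0 (by rw [h, mul_one]))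

variable {V W : Type} [Fintype V] [Fintype W]

/-- the relations for the game algebra, in the form needed for `Rep` -/
def GameP (G : SimpleGraph V) (H : SimpleGraph W) (B : Type) [CStarAlgebra B]
    (q : V × W → B) : Prop := IsGameFamily G H fun g h => q (g, h)

theorem exists_gameAlgebra (G : SimpleGraph V) (H : SimpleGraph W) :
    ∃ (A : Type 1) (_ : CStarAlgebra A) (p : V → W → A), IsGameAlgebra G H A p := by
  have hb : ∀ i : Rep (V × W) (GameP G H), ∀ x, ‖i.q x‖ ≤ 1 := fun i x =>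
    norm_le_one_of_proj (i.hq.selfadj x.1 x.2) (i.hq.idem x.1 x.2)
  refine ⟨SA hb, inferInstance, fun g h => gen hb (g, h), ?_⟩
  have ext' : ∀ a b : SA hb, (∀ i : Rep (V × W) (GameP G H), ((a : Prod (GameP G H)) :
      ∀ i : Rep (V × W) (GameP G H), i.B) i = ((b : Prod (GameP G H)) :
      ∀ i : Rep (V × W) (GameP G H), i.B) i) → a = b := by
    intro a b hab
    exact Subtype.ext (lp.ext (funext hab))
  refine ⟨⟨?_, ?_, ?_, ?_, ?_⟩, ?_, ?_⟩
  · intro g h
    exact ext' _ _ fun i => i.hq.selfadj g h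
  · intro g h
    exact ext' _ _ fun i => i.hq.idem g h
  · intro g
    refine ext' _ _ fun i => ?_
    have := map_sum ((evalAt i).comp (SA hb).subtype) (fun h => gen hb (g, h)) Finset.univ
    exact this.trans (i.hq.row g)
  · intro h
    refine ext' _ _ fun i => ?_
    have := map_sum ((evalAt i).comp (SA hb).subtype) (fun g => gen hb (g, h)) Finset.univ
    exact this.trans (i.hq.col h)
  · intro g g' h h' hr
    exact ext' _ _ fun i => i.hq.orth g g' h h' hr
  · exact gen_dense hb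
  · intro B _ q hq
    obtain ⟨φ, hφ⟩ := lift_exists hb B (fun x => q x.1 x.2) hq
    exact ⟨φ, fun g h => hφ (g, h)⟩

/-- the relations for the group algebra, in the form needed for `Rep` -/
def GroupP (Λ : Type) [Group Λ] (B : Type) [CStarAlgebra B] (q : Λ → B) : Prop :=
  ∃ w : Λ →* unitary B, ∀ s, q s = w s

theorem exists_groupCStar (Λ : Type) [Group Λ] :
    ∃ (C : Type 1) (_ : CStarAlgebra C) (v : Λ →* unitary C), IsGroupCStar Λ C v := by
  have hb : ∀ i : Rep Λ (GroupP Λ), ∀ x, ‖i.q x‖ ≤ 1 := by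
    intro i x
    obtain ⟨w, hw⟩ := i.hq
    rw [hw x]
    exact (CStarRing.norm_coe_unitary (w x)).le
  have ext' : ∀ a b : SA hb, (∀ i : Rep Λ (GroupP Λ), ((a : Prod (GroupP Λ)) :
      ∀ i : Rep Λ (GroupP Λ), i.B) i = ((b : Prod (GroupP Λ)) :
      ∀ i : Rep Λ (GroupP Λ), i.B) i) → a = b := by
    intro a b hab
    exact Subtype.ext (lp.ext (funext hab))
  have hone : gen hb 1 = 1 := ext' _ _ fun i => by
    obtain ⟨w, hw⟩ := i.hq
    exact (hw 1).trans (by rw [map_one]; rfl)
  have hmul : ∀ s t, gen hb (s * t) = gen hb s * gen hb t := fun s t => ext' _ _ fun i => by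
    obtain ⟨w, hw⟩ := i.hq
    have : i.q (s * t) = i.q s * i.q t := by rw [hw, hw, hw, map_mul]; rfl
    exact this
  have hstar : ∀ s, star (gen hb s) = gen hb s⁻¹ := fun s => ext' _ _ fun i => by
    obtain ⟨w, hw⟩ := i.hq
    have : star (i.q s) = i.q s⁻¹ := by
      rw [hw, hw, map_inv]; rfl
    exact this
  have hu : ∀ s, gen hb s ∈ unitary (SA hb) := by
    intro s
    rw [Unitary.mem_iff]
    constructor
    · rw [hstar, ← hmul, inv_mul_cancel, hone]
    · rw [hstar, ← hmul, mul_inv_cancel, hone]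
  refine ⟨SA hb, inferInstance, ⟨⟨fun s => ⟨gen hb s, hu s⟩, Subtype.ext hone⟩,
    fun s t => Subtype.ext (hmul s t)⟩, ?_, ?_⟩
  · exact gen_dense hb
  · intro B _ w
    obtain ⟨φ, hφ⟩ := lift_exists hb B (fun s => (w s : B)) ⟨w, fun _ => rfl⟩
    exact ⟨φ, hφ⟩

end Pool.Agent.R509GA
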