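import Pool.Agent.R509GA.Obstruct

set_option autoImplicit false

/-! # The magic square graphs -/

namespace Pool.Agent.R509GA

/-- equations of the magic square: `(false, r)` is row `r`, `(true, c)` is column `c` -/
abbrev Eqn := Bool × Fin 3

/-- vertices: an equation with the values of its first two variables -/
abbrev Vtx := Eqn × (ZMod 2 × ZMod 2)

/-- the `j`-th variable of an equation -/
def var (e : Eqn) (j : Fin 3) : Fin 3 × Fin 3 := if e.1 then (j, e.2) else (e.2, j)

/-- the value of the `j`-th variable of the equation of `v`, when the right-hand sides are `β` -/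
def val (β : Eqn → ZMod 2) (v : Vtx) : Fin 3 → ZMod 2 := ![v.2.1, v.2.2, v.2.1 + v.2.2 + β v.1]

lemma var_inj {e : Eqn} {i j : Fin 3} (h : var e i = var e j) : i = j := by
  revert e i j; decide

/-- the graph of the linear system with right-hand sides `β` -/
def msGraph (β : Eqn → ZMod 2) : SimpleGraph Vtx where
  Adj u v := ∃ i j, var u.1 i = var v.1 j ∧ val β u i ≠ val β v j
  symm := ⟨by
    rintro u v ⟨i, j, h1, h2⟩
    exact ⟨j, i, h1.symm, h2.symm⟩⟩
  loopless := ⟨by
    rintro u ⟨i, j, h1, h2⟩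
    exact h2 (by rw [var_inj h1])⟩

/-- right-hand sides of the magic square: only the last column is odd -/
def b1 : Eqn → ZMod 2 := fun e => if e = (true, 2) then 1 else 0

/-- right-hand sides of the homogeneous system -/
def b0 : Eqn → ZMod 2 := fun _ => 0

lemma val_sum (β : Eqn → ZMod 2) (v : Vtx) : val β v 0 + val β v 1 + val β v 2 = β v.1 := by
  simp only [val, Matrix.cons_val_zero, Matrix.cons_val_one, Matrix.cons_val]
  have h2 : ∀ a b c : ZMod 2, a + b + (a + b + c) = c := by decide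
  exact h2 _ _ _

lemma adj_of_same_block (β : Eqn → ZMod 2) {u v : Vtx} (h : u.1 = v.1) (hne : u ≠ v) :
    (msGraph β).Adj u v := by
  by_cases h1 : u.2.1 = v.2.1
  · have h2 : u.2.2 ≠ v.2.2 := fun h2 => hne (Prod.ext h (Prod.ext h1 h2))
    exact ⟨1, 1, by rw [h], by simpa [val] using h2⟩
  · exact ⟨0, 0, by rw [h], by simpa [val] using h1⟩

/-- the two magic square graphs are not isomorphic -/
theorem not_iso : ¬ Nonempty (msGraph b1 ≃g msGraph b0) := by
  rintro ⟨e⟩
  set v : Eqn → Vtx := fun k => e.symm (k, 0, 0) with hv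
  have hvinj : Function.Injective v := by
    intro k l h
    have := e.symm.injective h
    exact (Prod.ext_iff.1 this).1
  have hnadj : ∀ k l, ¬ (msGraph b1).Adj (v k) (v l) := by
    intro k l h
    have h2 := (e.symm.map_rel_iff (a := (k, 0, 0)) (b := (l, 0, 0))).1 h
    obtain ⟨i, j, -, h3⟩ := h2
    apply h3
    have hz : ∀ (k : Eqn) (i : Fin 3), val b0 (k, 0, 0) i = 0 := by
      intro k i
      fin_cases i <;> simp [val, b0]
    rw [hz, hz]
  have hblk : Function.Injective fun k => (v k).1 := by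
    intro k l h
    by_contra hne
    exact hnadj k l (adj_of_same_block b1 h (fun h2 => hne (hvinj h2)))
  have hsurj := Finite.surjective_of_injective hblk
  choose σ hσ using hsurj
  set w : Eqn → Vtx := fun l => v (σ l) with hw
  have hw1 : ∀ l, (w l).1 = l := hσ
  have hcons : ∀ r c : Fin 3, val b1 (w (false, r)) c = val b1 (w (true, c)) r := by
    intro r c
    by_contra hne
    refine hnadj (σ (false, r)) (σ (true, c)) ⟨c, r, ?_, hne⟩
    have e1 : (v (σ (false, r))).1 = (false, r) := hσ _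
    have e2 : (v (σ (true, c))).1 = (true, c) := hσ _
    rw [e1, e2]
    rfl
  have hr : ∀ r : Fin 3, val b1 (w (false, r)) 0 + val b1 (w (false, r)) 1 +
      val b1 (w (false, r)) 2 = 0 := by
    intro r
    rw [val_sum, hw1]
    simp [b1]
  have hc : ∀ c : Fin 3, val b1 (w (true, c)) 0 + val b1 (w (true, c)) 1 +
      val b1 (w (true, c)) 2 = if c = 2 then 1 else 0 := by
    intro c
    rw [val_sum, hw1]
    simp [b1]
  have r0 := hr 0
  have r1 := hr 1
  have r2 := hr 2
  have c0 := hc 0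
  have c1 := hc 1
  have c2 := hc 2
  simp only [hcons] at r0 r1 r2
  have h02 : ((0 : Fin 3) = 2) = False := by simp
  have h12 : ((1 : Fin 3) = 2) = False := by simp
  simp only [h02, h12, if_false, if_true] at c0 c1 c2
  have : (1 : ZMod 2) = 0 := by linear_combination r0 + r1 + r2 - c0 - c1 - c2
  exact absurd this (by decide)

/-! ### the quantum isomorphism -/

/-- four times Pauli matrices tensor products: the nine observables of the magic square -/
def Obs : Fin 3 × Fin 3 → Matrix (Fin 4) (Fin 4) ℤ := fun x =>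
  match x with
  | (0, 0) => !![0, 0, 1, 0; 0, 0, 0, 1; 1, 0, 0, 0; 0, 1, 0, 0]
  | (0, 1) => !![0, 1, 0, 0; 1, 0, 0, 0; 0, 0, 0, 1; 0, 0, 1, 0]
  | (0, 2) => !![0, 0, 0, 1; 0, 0, 1, 0; 0, 1, 0, 0; 1, 0, 0, 0]
  | (1, 0) => !![1, 0, 0, 0; 0, -1, 0, 0; 0, 0, 1, 0; 0, 0, 0, -1]
  | (1, 1) => !![1, 0, 0, 0; 0, 1, 0, 0; 0, 0, -1, 0; 0, 0, 0, -1]
  | (1, 2) => !![1, 0, 0, 0; 0, -1, 0, 0; 0, 0, -1, 0; 0, 0, 0, 1]
  | (2, 0) => !![0, 0, 1, 0; 0, 0, 0, -1; 1, 0, 0, 0; 0, -1, 0, 0]
  | (2, 1) => !![0, 1, 0, 0; 1, 0, 0, 0; 0, 0, 0, -1; 0, 0, -1, 0]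
  | (2, 2) => !![0, 0, 0, -1; 0, 0, 1, 0; 0, 1, 0, 0; -1, 0, 0, 0]

/-- the sign of an element of `ZMod 2` -/
def sgn (a : ZMod 2) : ℤ := if a = 0 then 1 else -1

/-- four times the joint spectral projection of equation `e` -/
def Q (e : Eqn) (a : ZMod 2 × ZMod 2) : Matrix (Fin 4) (Fin 4) ℤ :=
  (1 + sgn a.1 • Obs (var e 0)) * (1 + sgn a.2 • Obs (var e 1))

set_option maxRecDepth 100000 in
lemma Q_transpose : ∀ (e : Eqn) (a : ZMod 2 × ZMod 2), (Q e a).transpose = Q e a := by
  decide +kernel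

set_option maxRecDepth 100000 in
lemma Q_mul_self : ∀ (e : Eqn) (a : ZMod 2 × ZMod 2), Q e a * Q e a = (4 : ℤ) • Q e a := by
  decide +kernel

set_option maxRecDepth 100000 in
lemma Q_sum : ∀ (e : Eqn), ∑ a, Q e a = (4 : ℤ) • (1 : Matrix (Fin 4) (Fin 4) ℤ) := by
  decide +kernel

set_option maxRecDepth 100000 in
lemma Q_left : ∀ (e : Eqn) (a : ZMod 2 × ZMod 2) (i : Fin 3),
    Q e a * Obs (var e i) = sgn (val b1 (e, a) i) • Q e a := by
  decide +kernel

set_option maxRecDepth 100000 in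
lemma Q_right : ∀ (e : Eqn) (a : ZMod 2 × ZMod 2) (i : Fin 3),
    Obs (var e i) * Q e a = sgn (val b1 (e, a) i) • Q e a := by
  decide +kernel

end Pool.Agent.R509GA
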