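import Pool.Agent.R509GA.Defs

set_option autoImplicit false

/-! # A character of the game algebra is a graph isomorphism -/

namespace Pool.Agent.R509GA

universe u

variable {V W : Type} [Fintype V] [Fintype W] {G : SimpleGraph V} {H : SimpleGraph W}

lemma IsGameFamily.map {A B : Type*} [Ring A] [StarRing A] [Algebra ℂ A] [Ring B] [StarRing B]
    [Algebra ℂ B] {p : V → W → A} (hp : IsGameFamily G H p) (φ : A →⋆ₐ[ℂ] B) :
    IsGameFamily G H (fun g h => φ (p g h)) where
  selfadj g h := by rw [← map_star, hp.selfadj]
  idem g h := by rw [← map_mul, hp.idem]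
  row g := by rw [← map_sum, hp.row, map_one]
  col h := by rw [← map_sum, hp.col, map_one]
  orth g g' h h' hr := by rw [← map_mul, hp.orth g g' h h' hr, map_zero]

/-- a family of complex numbers satisfying the relations is a graph isomorphism -/
theorem nonempty_iso_of_complex {r : V → W → ℂ} (hr : IsGameFamily G H r) :
    Nonempty (G ≃g H) := by
  classical
  have h01 : ∀ g h, r g h = 0 ∨ r g h = 1 := by
    intro g h
    have := hr.idem g h
    have h2 : r g h * (r g h - 1) = 0 := by linear_combination this
    rcases mul_eq_zero.1 h2 with h3 | h3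
    · exact Or.inl h3
    · exact Or.inr (by linear_combination h3)
  have hex : ∀ g, ∃ h, r g h = 1 := by
    intro g
    by_contra hne
    push Not at hne
    have : ∑ h, r g h = 0 := Finset.sum_eq_zero fun h _ => (h01 g h).resolve_right (hne h)
    rw [hr.row] at this
    exact one_ne_zero this
  have hex' : ∀ h, ∃ g, r g h = 1 := by
    intro h
    by_contra hne
    push Not at hne
    have : ∑ g, r g h = 0 := Finset.sum_eq_zero fun g _ => (h01 g h).resolve_right (hne g)
    rw [hr.col] at this
    exact one_ne_zero this
  choose f hf using hex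
  have hsame : ∀ g g', SameRel G H g g' (f g) (f g') := by
    intro g g'
    by_contra hne
    have := hr.orth g g' (f g) (f g') hne
    rw [hf, hf, one_mul] at this
    exact one_ne_zero this
  have hinj : Function.Injective f := fun g g' h => (hsame g g').1.2 h
  have hsurj : Function.Surjective f := by
    intro h
    obtain ⟨g, hg⟩ := hex' h
    refine ⟨g, ?_⟩
    by_contra hne
    have h3 : ¬ SameRel G H g g (f g) h := fun hs => hne (hs.1.1 rfl)
    have := hr.orth g g (f g) h h3
    rw [hf, hg, one_mul] at this
    exact one_ne_zero this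
  exact ⟨{ toEquiv := Equiv.ofBijective f ⟨hinj, hsurj⟩
           map_rel_iff' := fun {a b} => (hsame a b).2.symm }⟩

/-- The obstruction: a unital *-homomorphism from a family satisfying the relations of `𝒜(G,H)`
into a full group C*-algebra forces `G` and `H` to be isomorphic. -/
theorem nonempty_iso {A : Type*} [CStarAlgebra A] {p : V → W → A} (hp : IsGameFamily G H p)
    {Λ : Type} [Group Λ] {C : Type u} [CStarAlgebra C] {v : Λ →* unitary C}
    (hC : IsGroupCStar Λ C v) (φ : A →⋆ₐ[ℂ] C) : Nonempty (G ≃g H) := by
  obtain ⟨χ, -⟩ := hC.lift ℂ 1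
  exact nonempty_iso_of_complex ((hp.map φ).map χ)

end Pool.Agent.R509GA
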