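import Pool.Agent.R509GA.Magic

set_option autoImplicit false

/-! # The magic square graphs are quantum isomorphic -/

namespace Pool.Agent.R509GA

lemma sgn_ne {a b : ZMod 2} (h : a ≠ b) : sgn b = - sgn a := by
  revert a b; decide

lemma sgn_sq (a : ZMod 2) : sgn a * sgn a = 1 := by
  revert a; decide

lemma Q_orth {e e' : Eqn} {a a' : ZMod 2 × ZMod 2} {i j : Fin 3} (h : var e i = var e' j)
    (hne : val b1 (e, a) i ≠ val b1 (e', a') j) : Q e a * Q e' a' = 0 := by
  set s := sgn (val b1 (e, a) i) with hs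
  have h1 : Q e a * Obs (var e i) * Q e' a' = s • (Q e a * Q e' a') := by
    rw [Q_left, smul_mul_assoc]
  have h2 : Q e a * Obs (var e i) * Q e' a' = (-s) • (Q e a * Q e' a') := by
    rw [mul_assoc, h, Q_right, mul_smul_comm, sgn_ne hne]
  have h3 : s • (Q e a * Q e' a') = (-s) • (Q e a * Q e' a') := h1.symm.trans h2
  have h4 : (2 : ℤ) • (Q e a * Q e' a') = 0 := by
    have h5 : s • (s • (Q e a * Q e' a')) = s • ((-s) • (Q e a * Q e' a')) := by rw [h3]
    rw [smul_smul, smul_smul, sgn_sq, mul_neg, sgn_sq, one_smul, neg_smul, one_smul] at h5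
    rw [two_smul]
    exact eq_neg_iff_add_eq_zero.1 h5
  ext x y
  have h6 := congrFun (congrFun h4 x) y
  simp only [Matrix.smul_apply, Matrix.zero_apply, smul_eq_mul] at h6
  simpa using h6

lemma val_add (e : Eqn) (a c : ZMod 2 × ZMod 2) (i : Fin 3) :
    val b1 (e, a + c) i = val b1 (e, a) i + val b0 (e, c) i := by
  fin_cases i
  · simp [val]
  · simp [val]
  · simp only [val, b0, Prod.fst_add, Prod.snd_add, Fin.reduceFinMk, Matrix.cons_val]
    ring

/-- the quantum permutation matrix, with integer entries (times four) -/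
def QP (u v : Vtx) : Matrix (Fin 4) (Fin 4) ℤ := if u.1 = v.1 then Q u.1 (u.2 + v.2) else 0

lemma QP_orth (g g' h h' : Vtx) (hr : ¬ SameRel (msGraph b1) (msGraph b0) g g' h h') :
    QP g h * QP g' h' = 0 := by
  unfold QP
  split_ifs with h1 h2
  · -- blocks agree
    obtain ⟨e, a⟩ := g
    obtain ⟨e', a'⟩ := g'
    obtain ⟨f, c⟩ := h
    obtain ⟨f', c'⟩ := h'
    simp only at h1 h2 ⊢
    subst h1
    subst h2
    -- find a shared variable with different values
    suffices hsuff : ∃ i j, var e i = var e' j ∧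
        val b1 (e, a + c) i ≠ val b1 (e', a' + c') j by
      obtain ⟨i, j, hij, hne⟩ := hsuff
      exact Q_orth hij hne
    have key : ∀ x y z w : ZMod 2, x ≠ y → z = w → x + z ≠ y + w := by decide
    have key' : ∀ x y z w : ZMod 2, x = y → z ≠ w → x + z ≠ y + w := by decide
    by_cases hG : ∃ i j, var e i = var e' j ∧ val b1 (e, a) i ≠ val b1 (e', a') j
    · -- adjacent in `G`
      by_cases hH : ∃ i j, var e i = var e' j ∧ val b0 (e, c) i ≠ val b0 (e', c') j
      · exfalso
        apply hr
        refine ⟨⟨fun heq => ?_, fun heq => ?_⟩, ⟨fun _ => hH, fun _ => hG⟩⟩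
        · obtain ⟨i, j, h1, h2⟩ := hG
          exact absurd (show (msGraph b1).Adj (e, a) (e', a') from ⟨i, j, h1, h2⟩)
            (heq ▸ (msGraph b1).irrefl)
        · obtain ⟨i, j, h1, h2⟩ := hH
          exact absurd (show (msGraph b0).Adj (e, c) (e', c') from ⟨i, j, h1, h2⟩)
            (heq ▸ (msGraph b0).irrefl)
      · obtain ⟨i, j, h1, h2⟩ := hG
        refine ⟨i, j, h1, ?_⟩
        rw [val_add, val_add]
        apply key _ _ _ _ h2
        by_contra h3
        exact hH ⟨i, j, h1, h3⟩
    · by_cases hH : ∃ i j, var e i = var e' j ∧ val b0 (e, c) i ≠ val b0 (e', c') j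
      · obtain ⟨i, j, h1, h2⟩ := hH
        refine ⟨i, j, h1, ?_⟩
        rw [val_add, val_add]
        refine key' _ _ _ _ ?_ h2
        by_contra h3
        exact hG ⟨i, j, h1, h3⟩
      · -- both non-adjacent: then exactly one of the pairs is equal
        exfalso
        apply hr
        have hG' : ¬ (msGraph b1).Adj (e, a) (e', a') := hG
        have hH' : ¬ (msGraph b0).Adj (e, c) (e', c') := hH
        refine ⟨⟨fun heq => ?_, fun heq => ?_⟩, ⟨fun h => absurd h hG', fun h => absurd h hH'⟩⟩
        · by_contra hne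
          have he : e = e' := (Prod.ext_iff.1 heq).1
          exact hH' (adj_of_same_block b0 he hne)
        · by_contra hne
          have he : e = e' := (Prod.ext_iff.1 heq).1
          exact hG' (adj_of_same_block b1 he hne)
  · simp
  · simp
  · simp

/-- the quantum permutation matrix in `M_4(ℂ)` -/
noncomputable def PM (u v : Vtx) : Matrix (Fin 4) (Fin 4) ℂ :=
  (1 / 4 : ℂ) • (QP u v).map (Int.cast : ℤ → ℂ)

lemma map_mul' (A B : Matrix (Fin 4) (Fin 4) ℤ) :
    (A * B).map (Int.cast : ℤ → ℂ) = A.map Int.cast * B.map Int.cast :=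
  Matrix.map_mul (f := Int.castRingHom ℂ)

lemma QP_row (g : Vtx) : ∑ h, QP g h = (4 : ℤ) • (1 : Matrix (Fin 4) (Fin 4) ℤ) := by
  rw [Fintype.sum_prod_type]
  rw [Finset.sum_eq_single g.1]
  · rw [← Q_sum g.1]
    rw [← Equiv.sum_comp (Equiv.addLeft g.2)]
    refine Finset.sum_congr rfl fun a _ => ?_
    have h2 : ∀ a b : ZMod 2 × ZMod 2, a + (a + b) = b := by decide
    simp only [QP, Equiv.coe_addLeft, if_true, h2]
  · intro e _ he
    exact Finset.sum_eq_zero fun a _ => if_neg (Ne.symm he)
  · intro h; exact absurd (Finset.mem_univ _) h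

lemma QP_symm (g h : Vtx) : QP g h = QP h g := by
  unfold QP
  by_cases h1 : g.1 = h.1
  · rw [if_pos h1, if_pos h1.symm, h1, add_comm]
  · rw [if_neg h1, if_neg (Ne.symm h1)]

lemma map_sum' {ι : Type} [Fintype ι] (f : ι → Matrix (Fin 4) (Fin 4) ℤ) :
    (∑ i, f i).map (Int.cast : ℤ → ℂ) = ∑ i, (f i).map (Int.cast : ℤ → ℂ) := by
  ext x y
  simp [Matrix.sum_apply]

theorem PM_family : IsGameFamily (msGraph b1) (msGraph b0) PM := by
  have hrow : ∀ g, ∑ h, PM g h = 1 := by
    intro g
    unfold PM
    rw [← Finset.smul_sum, ← map_sum', QP_row]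
    ext x y
    rw [Matrix.smul_apply, Matrix.map_apply, Matrix.smul_apply, Matrix.one_apply,
      Matrix.one_apply]
    split_ifs <;> norm_num
  refine ⟨?_, ?_, hrow, ?_, ?_⟩
  · intro g h
    unfold PM QP
    rw [Matrix.star_eq_conjTranspose]
    split_ifs with h1
    · ext x y
      have := congrFun (congrFun (Q_transpose g.1 (g.2 + h.2)) x) y
      simp only [Matrix.transpose_apply] at this
      simp [Matrix.conjTranspose_apply, this]
    · ext x y; simp
  · intro g h
    unfold PM QP
    split_ifs with h1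
    · rw [smul_mul_smul_comm, ← map_mul', Q_mul_self]
      ext x y
      rw [Matrix.smul_apply, Matrix.map_apply, Matrix.smul_apply, Matrix.smul_apply,
        Matrix.map_apply]
      simp only [smul_eq_mul, Int.cast_mul, Int.cast_ofNat]
      ring
    · ext x y; simp
  · intro h
    rw [← hrow h]
    exact Finset.sum_congr rfl fun g _ => by rw [PM, PM, QP_symm]
  · intro g g' h h' hr
    unfold PM
    rw [smul_mul_smul_comm, ← map_mul', QP_orth g g' h h' hr]
    ext x y; simp

end Pool.Agent.R509GA
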