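import Mathlib

set_option autoImplicit false

/-! # Universal C*-algebras with bounded generators -/

namespace Pool.Agent.R509GA

open scoped ENNReal

universe u

/-- A representation of the generators `X` in a nonzero unital C*-algebra living in `Type`,
subject to the relations `P`. -/
structure Rep (X : Type) (P : ∀ (B : Type) [CStarAlgebra B], (X → B) → Prop) : Type 1 where
  B : Type
  inst : CStarAlgebra B
  nt : Nontrivial B
  q : X → B
  hq : P B q

attribute [instance] Rep.inst Rep.nt

variable {X : Type} {P : ∀ (B : Type) [CStarAlgebra B], (X → B) → Prop}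

/-- the product of all representations -/
abbrev Prod (P : ∀ (B : Type) [CStarAlgebra B], (X → B) → Prop) : Type 1 :=
  lp (fun i : Rep X P => i.B) ∞

noncomputable instance instProd : CStarAlgebra (Prod P) where

/-- the generators in the product -/
noncomputable def gen0 (hb : ∀ i : Rep X P, ∀ x, ‖i.q x‖ ≤ 1) (x : X) : Prod P :=
  ⟨fun i => i.q x, memℓp_infty ⟨1, by rintro _ ⟨i, rfl⟩; exact hb i x⟩⟩

lemma gen0_apply (hb : ∀ i : Rep X P, ∀ x, ‖i.q x‖ ≤ 1) (x : X) (i : Rep X P) :
    (gen0 hb x : ∀ i : Rep X P, i.B) i = i.q x := rfl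

/-- evaluation at a representation -/
noncomputable def evalAt (i : Rep X P) : Prod P →⋆ₐ[ℂ] i.B where
  toFun f := (f : ∀ i : Rep X P, i.B) i
  map_one' := rfl
  map_mul' _ _ := rfl
  map_zero' := rfl
  map_add' _ _ := rfl
  commutes' _ := rfl
  map_star' _ := rfl

/-- the closed star subalgebra generated by the generators -/
noncomputable def SA (hb : ∀ i : Rep X P, ∀ x, ‖i.q x‖ ≤ 1) : StarSubalgebra ℂ (Prod P) :=
  (StarAlgebra.adjoin ℂ (Set.range (gen0 hb))).topologicalClosure

lemma SA_closed (hb : ∀ i : Rep X P, ∀ x, ‖i.q x‖ ≤ 1) : IsClosed (SA hb : Set (Prod P)) :=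
  StarSubalgebra.isClosed_topologicalClosure _

noncomputable instance (hb : ∀ i : Rep X P, ∀ x, ‖i.q x‖ ≤ 1) : CStarAlgebra (SA hb) :=
  letI := SA_closed hb
  haveI : IsClosed (SA hb : Set (Prod P)) := SA_closed hb
  inferInstance

/-- the generators in `SA` -/
noncomputable def gen (hb : ∀ i : Rep X P, ∀ x, ‖i.q x‖ ≤ 1) (x : X) : SA hb :=
  ⟨gen0 hb x, StarSubalgebra.le_topologicalClosure _ (StarAlgebra.subset_adjoin ℂ _ ⟨x, rfl⟩)⟩

/-- the closed star subalgebra of `SA` generated by the generators is everything -/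
lemma gen_dense (hb : ∀ i : Rep X P, ∀ x, ‖i.q x‖ ≤ 1) :
    (StarAlgebra.adjoin ℂ (Set.range (gen hb))).topologicalClosure = ⊤ := by
  rw [eq_top_iff]
  rintro ⟨y, hy⟩ -
  have himg : (Subtype.val '' ((StarAlgebra.adjoin ℂ (Set.range (gen hb)) :
      StarSubalgebra ℂ (SA hb)) : Set (SA hb))) =
      ((StarAlgebra.adjoin ℂ (Set.range (gen0 hb)) : StarSubalgebra ℂ (Prod P)) :
        Set (Prod P)) := by
    have h := StarAlgHom.map_adjoin (R := ℂ) (SA hb).subtype (Set.range (gen hb))
    have h2 : (SA hb).subtype '' Set.range (gen hb) = Set.range (gen0 hb) := by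
      rw [← Set.range_comp]; rfl
    rw [h2] at h
    rw [← h]
    rfl
  have hy' : y ∈ closure ((StarAlgebra.adjoin ℂ (Set.range (gen0 hb)) :
      StarSubalgebra ℂ (Prod P)) : Set (Prod P)) := hy
  rw [← himg] at hy'
  exact closure_subtype.2 hy'

/-- every representation in a C*-algebra in `Type` factors through `SA` -/
lemma lift_exists (hb : ∀ i : Rep X P, ∀ x, ‖i.q x‖ ≤ 1) (B : Type) [CStarAlgebra B]
    (q : X → B) (hq : P B q) : ∃ φ : SA hb →⋆ₐ[ℂ] B, ∀ x, φ (gen hb x) = q x := by
  rcases subsingleton_or_nontrivial B with hB | hB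
  · refine ⟨{ toFun := fun _ => 0
              map_one' := Subsingleton.elim _ _
              map_mul' := fun _ _ => Subsingleton.elim _ _
              map_zero' := Subsingleton.elim _ _
              map_add' := fun _ _ => Subsingleton.elim _ _
              commutes' := fun _ => Subsingleton.elim _ _
              map_star' := fun _ => Subsingleton.elim _ _ }, fun x => Subsingleton.elim _ _⟩
  · exact ⟨(evalAt (⟨B, inferInstance, hB, q, hq⟩ : Rep X P)).comp (SA hb).subtype, fun x => rfl⟩

end Pool.Agent.R509GA
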